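import Pool.Agent.Lib.MP_a54a32_lc.Graph

/-!
The rational-distance graph of the plane.
-/

namespace Pool.Agent.Lib.MP_a54a32_lc

open Set

/-- Distinct points at rational distance. -/
def RatAdj (x y : EuclideanSpace ℝ (Fin 2)) : Prop := x ≠ y ∧ ∃ q : ℚ, dist x y = (q : ℝ)

theorem ratAdj_symm (x y : EuclideanSpace ℝ (Fin 2)) (h : RatAdj x y) : RatAdj y x :=
  ⟨h.1.symm, by obtain ⟨q, hq⟩ := h.2; exact ⟨q, by rw [dist_comm, hq]⟩⟩

theorem countable_common (a b : EuclideanSpace ℝ (Fin 2)) (hab : a ≠ b) :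
    {x | RatAdj x a ∧ RatAdj x b}.Countable := by
  have hsub : {x | RatAdj x a ∧ RatAdj x b} ⊆
      ⋃ p : ℚ × ℚ, {x | dist x a = (p.1 : ℝ) ∧ dist x b = (p.2 : ℝ)} := by
    rintro x ⟨⟨_, q, hq⟩, ⟨_, q', hq'⟩⟩
    exact mem_iUnion.2 ⟨(q, q'), hq, hq'⟩
  refine (countable_iUnion fun p => ?_).mono hsub
  by_cases hex : ∃ x y, x ≠ y ∧ (dist x a = (p.1 : ℝ) ∧ dist x b = (p.2 : ℝ)) ∧
      (dist y a = (p.1 : ℝ) ∧ dist y b = (p.2 : ℝ))
  · obtain ⟨x, y, hxy, ⟨h1, h2⟩, h3, h4⟩ := hex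
    have : {z | dist z a = (p.1 : ℝ) ∧ dist z b = (p.2 : ℝ)} ⊆ {x, y} := by
      rintro z ⟨h5, h6⟩
      exact EuclideanGeometry.eq_of_dist_eq_of_dist_eq_of_finrank_eq_two
        (by simp) hab hxy h1 h3 h5 h2 h4 h6
    exact ((Set.finite_singleton y).insert x |>.countable).mono this
  · push Not at hex
    apply Set.Subsingleton.countable
    intro x hx y hy
    by_contra hxy
    exact hex x y hxy hx hy.1 hy.2

end Pool.Agent.Lib.MP_a54a32_lc
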