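import Mathlib

/-!
Saturated σ-ideals and weakly inaccessible cardinals (Ulam's theorem).
-/

namespace Pool.Agent.Lib.MP_a54a32_lc

open Cardinal Set Order Ordinal

/-- A proper σ-ideal on `X` which contains the singletons and for which every family of pairwise
disjoint positive sets is countable. -/
structure SatIdeal (X : Type) where
  I : Set X → Prop
  empty : I ∅
  mono : ∀ S T, S ⊆ T → I T → I S
  union : ∀ S : ℕ → Set X, (∀ n, I (S n)) → I (⋃ n, S n)
  sing : ∀ x, I {x}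
  proper : ¬ I univ
  ccc : ∀ 𝒮 : Set (Set X), (∀ S ∈ 𝒮, ¬ I S) → 𝒮.PairwiseDisjoint id → 𝒮.Countable

variable {Y : Type}

theorem SatIdeal.union2 (J : SatIdeal Y) {S T : Set Y} (hS : J.I S) (hT : J.I T) :
    J.I (S ∪ T) := by
  have h := J.union (fun n => if n = 0 then S else T) (by
    intro n
    split_ifs
    · exact hS
    · exact hT)
  refine J.mono _ _ ?_ h
  rintro x (hx | hx)
  · exact mem_iUnion.2 ⟨0, by simpa using hx⟩
  · exact mem_iUnion.2 ⟨1, by simpa using hx⟩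

/-- Push forward of a saturated ideal. -/
theorem SatIdeal.push (J : SatIdeal Y) {ι : Type} (W : Set Y) (hW : ¬ J.I W) (g : Y → ι)
    (hg : ∀ i, J.I {y | y ∈ W ∧ g y = i}) : Nonempty (SatIdeal ι) := by
  refine ⟨⟨fun D => J.I {y | y ∈ W ∧ g y ∈ D}, ?_, ?_, ?_, ?_, ?_, ?_⟩⟩
  · refine J.mono _ _ ?_ J.empty
    rintro y ⟨-, hy⟩
    exact hy
  · intro S T hST hT
    refine J.mono _ _ ?_ hT
    intro y hy
    exact ⟨hy.1, hST hy.2⟩
  · intro S hS
    refine J.mono _ _ ?_ (J.union _ hS)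
    rintro y ⟨hy, hy'⟩
    obtain ⟨n, hn⟩ := mem_iUnion.1 hy'
    exact mem_iUnion.2 ⟨n, hy, hn⟩
  · intro i
    refine J.mono _ _ ?_ (hg i)
    rintro y ⟨hy, hy'⟩
    exact ⟨hy, hy'⟩
  · intro h
    refine hW (J.mono _ _ ?_ h)
    exact fun y hy => ⟨hy, mem_univ _⟩
  · intro 𝒮 h𝒮 hd
    have key : ((fun D : Set ι => {y | y ∈ W ∧ g y ∈ D}) '' 𝒮).Countable := by
      apply J.ccc
      · rintro _ ⟨D, hD, rfl⟩
        exact h𝒮 D hD
      · rintro _ ⟨D, hD, rfl⟩ _ ⟨D', hD', rfl⟩ hne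
        have hne' : D ≠ D' := by
          rintro rfl
          exact hne rfl
        have h1 := hd hD hD' hne'
        simp only [Function.onFun, id] at h1 ⊢
        rw [disjoint_left] at h1 ⊢
        rintro y ⟨-, hy⟩ ⟨-, hy'⟩
        exact h1 hy hy'
    refine countable_of_injective_of_countable_image ?_ key
    intro D hD D' hD' heq
    by_contra hne
    have h1 := hd hD hD' hne
    simp only [Function.onFun, id] at h1
    apply h𝒮 D hD
    refine J.mono _ _ ?_ J.empty
    intro y hy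
    have hy' : y ∈ {y | y ∈ W ∧ g y ∈ D'} := by
      have : {y | y ∈ W ∧ g y ∈ D} = {y | y ∈ W ∧ g y ∈ D'} := heq
      rw [← this]
      exact hy
    exact disjoint_left.1 h1 hy.2 hy'.2

theorem SatIdeal.complete (J : SatIdeal Y) (hmin : ∀ Z : Type, Nonempty (SatIdeal Z) → #Y ≤ #Z)
    (ι : Type) (hι : #ι < #Y) (Z : ι → Set Y) (hZ : ∀ i, J.I (Z i)) : J.I (⋃ i, Z i) := by
  by_contra hW
  have hne : Nonempty ι := by
    by_contra hemp
    rw [not_nonempty_iff] at hemp
    apply hW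
    rw [iUnion_of_empty]
    exact J.empty
  have h1 : ∀ y, y ∈ ⋃ i, Z i → ∃ i, y ∈ Z i := fun y hy => mem_iUnion.1 hy
  choose! g hg using h1
  have := J.push (⋃ i, Z i) hW g (fun i => by
    refine J.mono _ _ ?_ (hZ i)
    rintro y ⟨hy, rfl⟩
    exact hg y hy)
  exact absurd (hmin ι this) (not_le.2 hι)

theorem SatIdeal.aleph0_lt (J : SatIdeal Y) : ℵ₀ < #Y := by
  by_contra h
  rw [not_lt, Cardinal.mk_le_aleph0_iff] at h
  rcases isEmpty_or_nonempty Y with hY | hY
  · apply J.proper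
    rw [univ_eq_empty_iff.2 hY]
    exact J.empty
  · obtain ⟨f, hf⟩ := exists_surjective_nat Y
    apply J.proper
    refine J.mono _ _ ?_ (J.union (fun n => {f n}) (fun n => J.sing _))
    intro y _
    obtain ⟨n, rfl⟩ := hf y
    exact mem_iUnion.2 ⟨n, rfl⟩

theorem SatIdeal.small (J : SatIdeal Y) (hmin : ∀ Z : Type, Nonempty (SatIdeal Z) → #Y ≤ #Z)
    (S : Set Y) (hS : #S < #Y) : J.I S := by
  have h := J.complete hmin S hS (fun s => {s.1}) (fun s => J.sing _)
  refine J.mono _ _ ?_ h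
  intro y hy
  exact mem_iUnion.2 ⟨⟨y, hy⟩, rfl⟩

theorem SatIdeal.ulam_min (J : SatIdeal Y)
    (hmin : ∀ Z : Type, Nonempty (SatIdeal Z) → #Y ≤ #Z) :
    ℵ₀ < #Y ∧ (#Y).IsRegular ∧ ∀ μ < #Y, succ μ < #Y := by
  have hℵ := J.aleph0_lt
  obtain ⟨ho, hwf, hord⟩ := exists_ord_eq_type_lt Y
  have hIic : ∀ x : Y, J.I (Iic x) := by
    intro x
    have h1 : J.I (Iio x) := J.small hmin _ (mk_Iio_lt x hord)
    have h2 := J.union2 h1 (J.sing x)
    refine J.mono _ _ ?_ h2
    intro y hy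
    rcases eq_or_lt_of_le (show y ≤ x from hy) with h | h
    · exact Or.inr h
    · exact Or.inl h
  refine ⟨hℵ, ⟨hℵ.le, ?_⟩, ?_⟩
  · rw [hord, Ordinal.cof_type]
    by_contra hlt
    rw [not_le] at hlt
    obtain ⟨s, hs, hs'⟩ := Order.exists_cof_eq Y
    rw [← hs'] at hlt
    have h := J.complete hmin s hlt (fun x => Iic x.1) (fun x => hIic _)
    apply J.proper
    refine J.mono _ _ ?_ h
    intro y _
    obtain ⟨x, hx, hyx⟩ := hs y
    exact mem_iUnion.2 ⟨⟨x, hx⟩, hyx⟩
  · intro μ hμ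
    by_contra hcon
    have hsucc : succ μ = #Y := le_antisymm (succ_le_of_lt hμ) (not_lt.1 hcon)
    have hμℵ : ℵ₀ ≤ μ := by
      rw [← hsucc] at hℵ
      exact lt_succ_iff.1 hℵ
    obtain ⟨M, rfl⟩ : ∃ M : Type, #M = μ := ⟨μ.out, mk_out μ⟩
    have hinj : ∀ x : Y, ∃ f : Y → M, InjOn f (Iio x) := by
      intro x
      have h1 : #(Iio x) ≤ #M := by
        have := mk_Iio_lt x hord
        rw [← hsucc] at this
        exact lt_succ_iff.1 this
      obtain ⟨f⟩ := Cardinal.le_def _ _ |>.1 h1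
      have hM : Nonempty M := by
        rw [← mk_ne_zero_iff]
        exact (aleph0_pos.trans_le hμℵ).ne'
      classical
      refine ⟨fun y => if h : y ∈ Iio x then f ⟨y, h⟩ else Classical.arbitrary M, ?_⟩
      intro a ha b hb hab
      simp only [ha, hb, dite_true] at hab
      have := f.injective hab
      exact congrArg Subtype.val this
    choose f hf using hinj
    -- Ulam matrix
    have hrow : ∀ y : Y, ∃ m : M, ¬ J.I {x | y < x ∧ f x y = m} := by
      intro y
      by_contra hall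
      push Not at hall
      have h := J.complete hmin M hμ (fun m => {x | y < x ∧ f x y = m}) hall
      apply J.proper
      refine J.mono _ _ ?_ (J.union2 h (hIic y))
      intro x _
      rcases lt_or_ge y x with h' | h'
      · exact Or.inl (mem_iUnion.2 ⟨f x y, h', rfl⟩)
      · exact Or.inr h'
    choose m hm using hrow
    have hfib : ∃ m₀, ¬ (m ⁻¹' {m₀}).Countable := by
      by_contra hall
      push Not at hall
      have h1 : #Y ≤ #M := by
        have h2 : #Y = #(⋃ m₀, m ⁻¹' {m₀} : Set Y) := by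
          rw [← mk_univ]
          congr 1
          congr 1
          ext y
          simp
        rw [h2]
        refine mk_iUnion_le_sum_mk.trans ((sum_le_sum _ (fun _ => ℵ₀) ?_).trans ?_)
        · intro i
          exact (le_aleph0_iff_set_countable).2 (hall i)
        · rw [sum_const, Cardinal.lift_id, Cardinal.lift_id]
          exact mul_le_of_le hμℵ le_rfl hμℵ
      exact absurd h1 (not_le.2 hμ)
    obtain ⟨m₀, hm₀⟩ := hfib
    apply hm₀
    have hdis : ∀ y ∈ m ⁻¹' {m₀}, ∀ y' ∈ m ⁻¹' {m₀}, y ≠ y' →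
        Disjoint {x | y < x ∧ f x y = m y} {x | y' < x ∧ f x y' = m y'} := by
      intro y hy y' hy' hne
      rw [disjoint_left]
      rintro x ⟨h1, h2⟩ ⟨h3, h4⟩
      apply hne
      refine hf x (show y ∈ Iio x from h1) (show y' ∈ Iio x from h3) ?_
      rw [h2, h4]
      exact (show m y = m₀ from hy).trans (show m y' = m₀ from hy').symm
    have key : ((fun y => {x | y < x ∧ f x y = m y}) '' (m ⁻¹' {m₀})).Countable := by
      apply J.ccc
      · rintro _ ⟨y, hy, rfl⟩
        exact hm y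
      · rintro _ ⟨y, hy, rfl⟩ _ ⟨y', hy', rfl⟩ hne
        apply hdis y hy y' hy'
        rintro rfl
        exact hne rfl
    refine countable_of_injective_of_countable_image ?_ key
    intro y hy y' hy' heq
    by_contra hne
    have h1 := hdis y hy y' hy' hne
    have heq' : {x | y < x ∧ f x y = m y} = {x | y' < x ∧ f x y' = m y'} := heq
    rw [← heq', disjoint_self] at h1
    apply hm y
    rw [h1]
    exact J.empty

/-- **Ulam's theorem.** -/
theorem SatIdeal.ulam {X : Type} (J : SatIdeal X) :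
    ∃ κ ≤ #X, ℵ₀ < κ ∧ κ.IsRegular ∧ ∀ μ < κ, succ μ < κ := by
  set S : Set Cardinal.{0} := {c | ∃ Y : Type, #Y = c ∧ Nonempty (SatIdeal Y)} with hS
  have hne : S.Nonempty := ⟨_, X, rfl, ⟨J⟩⟩
  obtain ⟨Y, hY, ⟨J'⟩⟩ := csInf_mem hne
  have hmin : ∀ Z : Type, Nonempty (SatIdeal Z) → #Y ≤ #Z := by
    intro Z hZ
    rw [hY]
    exact csInf_le' ⟨Z, rfl, hZ⟩
  exact ⟨#Y, hmin X ⟨J⟩, J'.ulam_min hmin⟩

end Pool.Agent.Lib.MP_a54a32_lc
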