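import Pool.Agent.Lib.MP_a54a32_lc.Omega
import Pool.Agent.Lib.MP_a54a32_lc.Ulam
import Pool.Agent.Lib.MP_a54a32_lc.Plane

/-!
Free sets of full outer measure, when the null ideal is nowhere saturated.
-/

namespace Pool.Agent.Lib.MP_a54a32_lc

open MeasureTheory Set TopologicalSpace Filter MeasureTheory.Measure Cardinal
open scoped ENNReal Topology

theorem cut_exact {α : Type*} [MeasurableSpace α] (μ : Measure α) [IsFiniteMeasure μ] {Ω : Type*}
    [LinearOrder Ω] [WellFoundedLT Ω] (hΩ : ∀ i : Ω, (Iio i).Countable) [Uncountable Ω]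
    (F : α → Set α) (hF : ∀ x, (F x).Finite) (Q : Set α) (P : ℕ → Set α)
    (hsplit : ∀ Y ⊆ Q, μ Y ≠ 0 → ∃ S : Ω → Set α, (∀ i, S i ⊆ Y ∧ μ (S i) ≠ 0) ∧
      Pairwise (Function.onFun Disjoint S)) :
    ∃ Y ⊆ Q, μ Y = μ Q ∧ ∀ k, μ {x | x ∈ P k ∧ Disjoint (F x) Y} = μ (P k) := by
  obtain ⟨T, hT, hTd⟩ := exists_omega_full μ hΩ (measure_ne_top μ Q) hsplit
  have hbad : (⋃ k, {i | μ {x | x ∈ P k ∧ Disjoint (F x) (T i)} ≠ μ (P k)}).Countable :=
    countable_iUnion fun k => countable_bad μ (measure_ne_top μ _) F hF T hTd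
  have hex : ∃ i, i ∉ ⋃ k, {i | μ {x | x ∈ P k ∧ Disjoint (F x) (T i)} ≠ μ (P k)} := by
    by_contra hall
    push Not at hall
    rw [eq_univ_of_forall hall] at hbad
    exact not_countable (countable_univ_iff.1 hbad)
  obtain ⟨i, hi⟩ := hex
  refine ⟨T i, (hT i).1, (hT i).2, fun k => ?_⟩
  by_contra h
  exact hi (mem_iUnion.2 ⟨k, h⟩)

theorem free_exact {α : Type*} [MeasurableSpace α] (μ : Measure α) [IsFiniteMeasure μ] {Ω : Type*}
    [LinearOrder Ω] [WellFoundedLT Ω] (hΩ : ∀ i : Ω, (Iio i).Countable) [Uncountable Ω]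
    (F : α → Set α) (hF : ∀ x, (F x).Finite) (c : α → ℕ) (hc : ∀ x, ∀ y ∈ F x, c y < c x)
    (A : Set α)
    (hsplit : ∀ Y ⊆ A, μ Y ≠ 0 → ∃ S : Ω → Set α, (∀ i, S i ⊆ Y ∧ μ (S i) ≠ 0) ∧
      Pairwise (Function.onFun Disjoint S)) :
    ∃ B ⊆ A, (∀ x ∈ B, ∀ y ∈ F x, y ∉ B) ∧ μ B = μ A := by
  have step : ∀ (n : ℕ) (R : {R : Set α // R ⊆ A}), ∃ Y ⊆ {x | x ∈ R.1 ∧ c x = n},
      μ Y = μ {x | x ∈ R.1 ∧ c x = n} ∧
      ∀ k, μ {x | x ∈ {x | x ∈ R.1 ∧ c x = k} ∧ Disjoint (F x) Y} =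
        μ {x | x ∈ R.1 ∧ c x = k} := by
    intro n R
    exact cut_exact μ hΩ F hF {x | x ∈ R.1 ∧ c x = n} (fun k => {x | x ∈ R.1 ∧ c x = k})
      (fun Y hY h0 => hsplit Y (fun x hx => R.2 (hY hx).1) h0)
  choose Y hY1 hY2 hY3 using step
  let R : ℕ → {R : Set α // R ⊆ A} := fun n => Nat.rec ⟨A, subset_rfl⟩
    (fun n R => ⟨{x | x ∈ R.1 ∧ Disjoint (F x) (Y n R)}, fun x hx => R.2 hx.1⟩) n
  have hR : ∀ n, (R (n + 1)).1 = {x | x ∈ (R n).1 ∧ Disjoint (F x) (Y n (R n))} := fun n => rfl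
  have hRanti : Antitone fun n => (R n).1 := by
    apply antitone_nat_of_succ_le
    intro n
    change (R (n + 1)).1 ⊆ (R n).1
    rw [hR]
    exact fun x hx => hx.1
  have hfull : ∀ k n, μ {x | x ∈ (R n).1 ∧ c x = k} = μ {x | x ∈ A ∧ c x = k} := by
    intro k n
    induction n with
    | zero => rfl
    | succ n ih =>
      rw [← ih, ← hY3 n (R n) k, hR]
      congr 1
      ext x
      simp only [mem_ofPred_eq]
      tauto
  refine ⟨⋃ n, Y n (R n), ?_, ?_, ?_⟩
  · exact iUnion_subset fun n x hx => (R n).2 (hY1 n (R n) hx).1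
  · intro x hx y hy hyB
    obtain ⟨m, hm⟩ := mem_iUnion.1 hx
    obtain ⟨n, hn⟩ := mem_iUnion.1 hyB
    have h1 := hY1 m (R m) hm
    have h2 := hY1 n (R n) hn
    have h3 : n < m := by
      have := hc x y hy
      rw [h1.2, h2.2] at this
      exact this
    have h4 : x ∈ (R (n + 1)).1 := hRanti (Nat.succ_le_of_lt h3) h1.1
    rw [hR] at h4
    exact disjoint_left.1 h4.2 hy hn
  · have hA : A = ⋃ n, {x | x ∈ A ∧ c x = n} := by
      ext x
      simp only [mem_iUnion, mem_ofPred_eq]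
      exact ⟨fun hx => ⟨c x, hx, rfl⟩, fun ⟨_, hx, _⟩ => hx⟩
    conv_rhs => rw [hA]
    refine measure_iUnion_congr_of_subset ?_ ?_
    · intro n x hx
      exact ⟨(R n).2 (hY1 n (R n) hx).1, (hY1 n (R n) hx).2⟩
    · intro n
      rw [hY2 n (R n), hfull n n]

/-- Full outer measure with respect to an equivalent finite measure. -/
theorem full_transfer {α : Type*} [MeasurableSpace α] (μ : Measure α) [SFinite μ]
    {A B : Set α} (hBA : B ⊆ A) (h : μ.toFinite B = μ.toFinite A) : μ B = μ A := by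
  apply le_antisymm (measure_mono hBA)
  set H := toMeasurable μ B with hH
  have hHm : MeasurableSet H := measurableSet_toMeasurable _ _
  have hBH : B ⊆ H := subset_toMeasurable _ _
  have e1 : μ.toFinite (A ∩ H) + μ.toFinite (A \ H) = μ.toFinite A := measure_inter_add_sdiff A hHm
  have e2 : μ.toFinite A ≤ μ.toFinite (A ∩ H) := by
    rw [← h]
    exact measure_mono (subset_inter hBA hBH)
  have e3 : μ.toFinite (A \ H) = 0 := by
    have h1 : μ.toFinite (A ∩ H) + μ.toFinite (A \ H) ≤ μ.toFinite (A ∩ H) + 0 := by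
      rw [e1, add_zero]; exact e2
    exact le_antisymm ((ENNReal.add_le_add_iff_left (measure_ne_top _ _)).1 h1) bot_le
  have e4 : μ (A \ H) = 0 := absolutelyContinuous_toFinite μ e3
  calc μ A ≤ μ (H ∪ (A \ H)) := measure_mono (fun x hx => by
        by_cases hxH : x ∈ H
        · exact Or.inl hxH
        · exact Or.inr ⟨hx, hxH⟩)
    _ ≤ μ H + μ (A \ H) := measure_union_le _ _
    _ = μ B := by rw [e4, add_zero, hH, measure_toMeasurable]

/-- The dichotomy. -/
theorem dichotomy {α : Type} [MeasurableSpace α] (μ : Measure α) [SigmaFinite μ]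
    [NullSingletonClass μ]
    (F : α → Set α) (hF : ∀ x, (F x).Finite) (c : α → ℕ) (hc : ∀ x, ∀ y ∈ F x, c y < c x)
    (A : Set α) :
    (∃ B ⊆ A, (∀ x ∈ B, ∀ y ∈ F x, y ∉ B) ∧ μ B = μ A) ∨
    (∃ A' ⊆ A, μ A' ≠ 0 ∧
      (∀ 𝒮 : Set (Set α), (∀ S ∈ 𝒮, S ⊆ A' ∧ μ S ≠ 0) → 𝒮.PairwiseDisjoint id → 𝒮.Countable) ∧
      ∃ κ ≤ #A', ℵ₀ < κ ∧ κ.IsRegular ∧ ∀ ν < κ, Order.succ ν < κ) := by
  obtain ⟨Ω, hmk⟩ : ∃ Ω : Type, #Ω = Order.succ ℵ₀ := ⟨_, mk_out _⟩
  obtain ⟨ho, hwf, hord⟩ := exists_ord_eq_type_lt Ω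
  have hΩ : ∀ i : Ω, (Iio i).Countable := by
    intro i
    have h1 := mk_Iio_lt i hord
    rw [hmk, Order.lt_succ_iff] at h1
    exact le_aleph0_iff_set_countable.1 h1
  have hunc : Uncountable Ω := by
    rw [← aleph0_lt_mk_iff, hmk]
    exact Order.lt_succ _
  by_cases hsplit : ∀ Y ⊆ A, μ Y ≠ 0 → ∃ S : Ω → Set α,
      (∀ i, S i ⊆ Y ∧ μ (S i) ≠ 0) ∧ Pairwise (Function.onFun Disjoint S)
  · left
    obtain ⟨B, hBA, hfree, hB⟩ := free_exact μ.toFinite hΩ F hF c hc A (by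
      intro Y hYA hY0
      obtain ⟨S, hS, hSd⟩ := hsplit Y hYA (fun h => hY0 (toFinite_absolutelyContinuous μ h))
      exact ⟨S, fun i => ⟨(hS i).1, fun h => (hS i).2 (absolutelyContinuous_toFinite μ h)⟩, hSd⟩)
    exact ⟨B, hBA, hfree, full_transfer μ hBA hB⟩
  · right
    push Not at hsplit
    obtain ⟨A', hA'A, hA'0, hno⟩ := hsplit
    have hccc : ∀ 𝒮 : Set (Set α), (∀ S ∈ 𝒮, S ⊆ A' ∧ μ S ≠ 0) → 𝒮.PairwiseDisjoint id →
        𝒮.Countable := by
      intro 𝒮 h𝒮 hd
      by_contra hunc'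
      have h1 : #Ω ≤ #𝒮 := by
        rw [hmk]
        apply Order.succ_le_of_lt
        rw [← not_le, le_aleph0_iff_set_countable]
        exact hunc'
      obtain ⟨e⟩ := (Cardinal.le_def _ _).1 h1
      refine hno (fun i => (e i).1) (fun i => h𝒮 _ (e i).2) ?_
      intro i j hij
      exact hd (e i).2 (e j).2 (fun h => hij (e.injective (Subtype.ext h)))
    refine ⟨A', hA'A, hA'0, hccc, ?_⟩
    have J : SatIdeal A' :=
      { I := fun D => μ (Subtype.val '' D) = 0
        empty := by simp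
        mono := by
          intro S T hST hT
          exact measure_mono_null (image_mono hST) hT
        union := by
          intro S hS
          rw [image_iUnion, measure_iUnion_null_iff]
          exact hS
        sing := by
          intro x
          rw [image_singleton]
          exact measure_singleton _
        proper := by
          rw [image_univ, Subtype.range_coe]
          exact hA'0
        ccc := by
          intro 𝒮 h𝒮 hd
          have key : ((fun D : Set A' => Subtype.val '' D) '' 𝒮).Countable := by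
            apply hccc
            · rintro _ ⟨D, hD, rfl⟩
              refine ⟨?_, h𝒮 D hD⟩
              rintro _ ⟨x, _, rfl⟩
              exact x.2
            · rintro _ ⟨D, hD, rfl⟩ _ ⟨D', hD', rfl⟩ hne
              have hne' : D ≠ D' := by
                rintro rfl
                exact hne rfl
              exact (disjoint_image_iff Subtype.val_injective).2 (hd hD hD' hne')
          refine countable_of_injective_of_countable_image ?_ key
          exact (image_injective.2 Subtype.val_injective).injOn }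
    exact J.ulam

end Pool.Agent.Lib.MP_a54a32_lc
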