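import Pool.Agent.Lib.MP_a54a32_lc.Lusin

/-!
Exhaustion, and the consequences of Lusin's theorem.
-/

namespace Pool.Agent.Lib.MP_a54a32_lc

open MeasureTheory Set TopologicalSpace Filter MeasureTheory.Measure
open scoped ENNReal Topology

/-- The exhaustion principle. -/
theorem exhaustion {α : Type*} [MeasurableSpace α] (μ : Measure α) {X : Set α} (hX : μ X ≠ ∞)
    (Good : Set α → Prop) (hmeas : ∀ E, Good E → MeasurableSet E) (hempty : Good ∅)
    (hsub : ∀ E D, Good E → MeasurableSet D → D ⊆ E → Good D)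
    (hunion : ∀ E : ℕ → Set α, (∀ n, Good (E n)) → Pairwise (Function.onFun Disjoint E) →
      Good (⋃ n, E n))
    (hex : ∀ G, MeasurableSet G → μ (X \ G) ≠ 0 → ∃ E, Good E ∧ μ ((X \ G) ∩ E) ≠ 0) :
    ∃ G, Good G ∧ μ (X \ G) = 0 := by
  have hfin : ∀ T ⊆ X, μ T ≠ ∞ := fun T hT => ne_top_of_le_ne_top hX (measure_mono hT)
  set S : Set ℝ≥0∞ := (fun E => μ (X ∩ E)) '' {E | Good E} with hS
  have hSne : S.Nonempty := ⟨_, ∅, hempty, rfl⟩
  obtain ⟨u, -, hu, huS⟩ := exists_seq_tendsto_sSup hSne (OrderTop.bddAbove S)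
  choose E hE hEu using huS
  set D : ℕ → Set α := disjointed E with hD
  have hDgood : ∀ n, Good (D n) := fun n =>
    hsub (E n) (D n) (hE n) (MeasurableSet.disjointed (fun n => hmeas _ (hE n)) n)
      (disjointed_subset E n)
  set G : Set α := ⋃ n, D n with hG
  have hGgood : Good G := hunion D hDgood (disjoint_disjointed E)
  have hGE : G = ⋃ n, E n := iUnion_disjointed
  refine ⟨G, hGgood, ?_⟩
  by_contra hne
  have hGm : MeasurableSet G := hmeas G hGgood
  have hGsup : sSup S ≤ μ (X ∩ G) := by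
    refine le_of_tendsto' hu (fun n => ?_)
    rw [← hEu n]
    apply measure_mono
    rw [hGE]
    exact inter_subset_inter_right _ (subset_iUnion E n)
  obtain ⟨E₁, hE₁, hE₁0⟩ := hex G hGm hne
  have hE₂ : Good (E₁ \ G) := hsub E₁ _ hE₁ ((hmeas _ hE₁).diff hGm) sdiff_subset
  set f : ℕ → Set α := fun n => if n = 0 then G else if n = 1 then E₁ \ G else ∅ with hf
  have hfgood : ∀ n, Good (f n) := by
    intro n
    simp only [hf]
    split_ifs
    · exact hGgood
    · exact hE₂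
    · exact hempty
  have hfdisj : Pairwise (Function.onFun Disjoint f) := by
    intro i j hij
    simp only [Function.onFun, hf]
    split_ifs with h1 h2 h3 h4 h5 h6
    · omega
    · exact disjoint_sdiff_right
    · exact disjoint_bot_right
    · exact disjoint_sdiff_left
    · omega
    · exact disjoint_bot_right
    · exact disjoint_bot_left
    · exact disjoint_bot_left
    · exact disjoint_bot_left
  have hf2 := hunion f hfgood hfdisj
  have hle : μ (X ∩ ⋃ n, f n) ≤ sSup S := le_sSup ⟨_, hf2, rfl⟩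
  have hge : μ (X ∩ G) + μ ((X \ G) ∩ E₁) ≤ μ (X ∩ ⋃ n, f n) := by
    have h1 := measure_inter_add_sdiff (μ := μ) (X ∩ ⋃ n, f n) hGm
    rw [← h1]
    apply add_le_add
    · apply measure_mono
      rintro x ⟨hx, hxG⟩
      exact ⟨⟨hx, mem_iUnion.2 ⟨0, by simpa [hf] using hxG⟩⟩, hxG⟩
    · apply measure_mono
      rintro x ⟨⟨hx, hxG⟩, hxE⟩
      exact ⟨⟨hx, mem_iUnion.2 ⟨1, by simp [hf, hxG, hxE]⟩⟩, hxG⟩
  have hfinG : μ (X ∩ G) ≠ ∞ := hfin _ inter_subset_left
  have h2 : μ (X ∩ G) + μ ((X \ G) ∩ E₁) ≤ μ (X ∩ G) + 0 := by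
    rw [add_zero]; exact hge.trans (hle.trans hGsup)
  have h3 := (ENNReal.add_le_add_iff_left hfinG).1 h2
  exact hE₁0 (le_antisymm h3 bot_le)

variable {α : Type*} [TopologicalSpace α] [SecondCountableTopology α] [MeasurableSpace α]
  (μ : Measure α) [μ.OuterRegular] [NullSingletonClass μ]

/-- **Lusin's theorem.** -/
theorem lusin_split {X : Set α} (hX : μ X ≠ ∞) :
    ∃ Y ⊆ X, μ Y = μ X ∧ μ (X \ Y) = μ X := by
  have hfin : ∀ T ⊆ X, μ T ≠ ∞ := fun T hT => ne_top_of_le_ne_top hX (measure_mono hT)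
  obtain ⟨G, ⟨hGm, Y, hYs, hY1, hY2⟩, hG0⟩ := exhaustion μ hX
    (fun E => MeasurableSet E ∧ ∃ Y ⊆ X ∩ E, μ Y = μ (X ∩ E) ∧ μ ((X ∩ E) \ Y) = μ (X ∩ E))
    (fun E hE => hE.1) ⟨MeasurableSet.empty, ∅, by simp, by simp, by simp⟩
    (by
      rintro E D ⟨hEm, Y, hYs, hY1, hY2⟩ hDm hDE
      refine ⟨hDm, Y ∩ D, ?_, ?_, ?_⟩
      · exact subset_inter (inter_subset_left.trans (hYs.trans inter_subset_left))
          inter_subset_right
      · have h1 := measure_inter_eq_of_measure_eq (μ := μ) hDm hY1 hYs (hfin _ (hYs.trans inter_subset_left))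
        rw [h1, inter_assoc, inter_eq_self_of_subset_right hDE]
      · have h1 := measure_inter_eq_of_measure_eq (μ := μ) hDm hY2 sdiff_subset
          (hfin _ (sdiff_subset.trans inter_subset_left))
        rw [inter_assoc, inter_eq_self_of_subset_right hDE] at h1
        rw [← h1]
        congr 1
        ext x
        simp only [Set.mem_sdiff, mem_inter_iff]
        constructor
        · rintro ⟨⟨a, b⟩, c⟩
          exact ⟨⟨⟨a, hDE b⟩, fun h => c ⟨h, b⟩⟩, b⟩
        · rintro ⟨⟨⟨a, b⟩, c⟩, d⟩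
          exact ⟨⟨a, d⟩, fun h => c h.1⟩)
    (by
      rintro E hE hdisj
      choose hEm Y hYs hY1 hY2 using hE
      refine ⟨MeasurableSet.iUnion hEm, ⋃ n, Y n, ?_, ?_, ?_⟩
      · rw [inter_iUnion]; exact iUnion_mono hYs
      · rw [inter_iUnion]
        exact measure_iUnion_congr_of_subset hYs (fun n => (hY1 n).ge)
      · have h1 : (X ∩ ⋃ n, E n) \ (⋃ n, Y n) = ⋃ n, ((X ∩ E n) \ Y n) := by
          ext x
          simp only [Set.mem_sdiff, mem_inter_iff, mem_iUnion, not_exists]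
          constructor
          · rintro ⟨⟨a, n, b⟩, c⟩
            exact ⟨n, ⟨a, b⟩, c n⟩
          · rintro ⟨n, ⟨a, b⟩, c⟩
            refine ⟨⟨a, n, b⟩, fun m hm => ?_⟩
            by_cases hmn : m = n
            · subst hmn; exact c hm
            · exact (disjoint_left.1 (hdisj hmn)) (hYs m hm).2 b
        rw [h1, inter_iUnion]
        exact measure_iUnion_congr_of_subset (fun n => sdiff_subset) (fun n => (hY2 n).ge))
    (by
      intro G hGm hG0
      set X' := X \ G with hX'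
      obtain ⟨Y, hYs, hY⟩ := exists_nonadditive μ hG0 (hfin X' sdiff_subset)
      set H₁ := toMeasurable μ Y with hH₁
      set H₂ := toMeasurable μ (X' \ Y) with hH₂
      have hH₁m : MeasurableSet H₁ := measurableSet_toMeasurable _ _
      have hH₂m : MeasurableSet H₂ := measurableSet_toMeasurable _ _
      have hYfin : μ Y ≠ ∞ := hfin _ (hYs.trans sdiff_subset)
      have hY'fin : μ (X' \ Y) ≠ ∞ := hfin _ (sdiff_subset.trans sdiff_subset)
      have hEm : MeasurableSet ((H₁ ∩ H₂) \ G) := (hH₁m.inter hH₂m).diff hGm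
      have hXE : X ∩ ((H₁ ∩ H₂) \ G) = X' ∩ ((H₁ ∩ H₂) \ G) := by
        ext x
        simp only [hX', mem_inter_iff, Set.mem_sdiff]
        tauto
      refine ⟨(H₁ ∩ H₂) \ G, ⟨hEm, Y ∩ ((H₁ ∩ H₂) \ G), ?_, ?_, ?_⟩, ?_⟩
      · exact inter_subset_inter_left _ (hYs.trans sdiff_subset)
      · apply le_antisymm (measure_mono (inter_subset_inter_left _ (hYs.trans sdiff_subset)))
        rw [← measure_toMeasurable_inter hEm hYfin]
        apply measure_mono
        rintro x ⟨_, h2⟩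
        exact ⟨h2.1.1, h2⟩
      · apply le_antisymm (measure_mono sdiff_subset)
        have h1 : (X' \ Y) ∩ ((H₁ ∩ H₂) \ G) ⊆
            (X ∩ ((H₁ ∩ H₂) \ G)) \ (Y ∩ ((H₁ ∩ H₂) \ G)) := by
          rintro x ⟨⟨hx1, hx2⟩, hx3⟩
          exact ⟨⟨hx1.1, hx3⟩, fun h => hx2 h.1⟩
        refine le_trans ?_ (measure_mono h1)
        rw [← measure_toMeasurable_inter hEm hY'fin]
        apply measure_mono
        rintro x ⟨_, h2⟩
        exact ⟨h2.1.2, h2⟩
      · intro h0
        have h0' : μ ((X' \ Y) ∩ H₁) = 0 := by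
          refine measure_mono_null ?_ h0
          rintro x ⟨hx1, hx2⟩
          exact ⟨hx1.1, ⟨hx2, subset_toMeasurable _ _ hx1⟩, hx1.1.2⟩
        have e1 : μ (X' ∩ H₁) + μ (X' \ H₁) = μ X' := measure_inter_add_sdiff X' hH₁m
        have e2 : μ Y ≤ μ (X' ∩ H₁) :=
          measure_mono (subset_inter hYs (subset_toMeasurable _ _))
        have e3 : μ (X' \ Y) ≤ μ (X' \ H₁) := by
          have hsub : X' \ Y ⊆ (X' \ H₁) ∪ ((X' \ Y) ∩ H₁) := by
            intro x hx
            by_cases h : x ∈ H₁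
            · exact Or.inr ⟨hx, h⟩
            · exact Or.inl ⟨hx.1, h⟩
          calc μ (X' \ Y) ≤ μ ((X' \ H₁) ∪ ((X' \ Y) ∩ H₁)) := measure_mono hsub
            _ ≤ μ (X' \ H₁) + μ ((X' \ Y) ∩ H₁) := measure_union_le _ _
            _ = μ (X' \ H₁) := by rw [h0', add_zero]
        have e4 : μ Y + μ (X' \ Y) ≤ μ X' := by
          rw [← e1]; exact add_le_add e2 e3
        exact absurd hY (not_lt.2 e4))
  have hXG : μ (X ∩ G) = μ X := by
    have h1 := measure_inter_add_sdiff (μ := μ) X hGm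
    rw [hG0, add_zero] at h1
    exact h1
  refine ⟨Y, hYs.trans inter_subset_left, hY1.trans hXG, ?_⟩
  apply le_antisymm (measure_mono sdiff_subset)
  rw [← hXG, ← hY2]
  exact measure_mono (sdiff_subset_sdiff_left inter_subset_left)

/-- Infinitely many pairwise disjoint subsets of full outer measure. -/
theorem exists_seq_full {X : Set α} (hX : μ X ≠ ∞) :
    ∃ T : ℕ → Set α, (∀ k, T k ⊆ X ∧ μ (T k) = μ X) ∧
      Pairwise (Function.onFun Disjoint T) := by
  classical
  have hsp : ∀ Z : {Z : Set α // Z ⊆ X ∧ μ Z = μ X}, ∃ Y ⊆ Z.1, μ Y = μ X ∧ μ (Z.1 \ Y) = μ X := by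
    rintro ⟨Z, hZs, hZ⟩
    obtain ⟨Y, h1, h2, h3⟩ := lusin_split μ (X := Z) (by rw [hZ]; exact hX)
    exact ⟨Y, h1, h2.trans hZ, h3.trans hZ⟩
  choose s hs1 hs2 hs3 using hsp
  set Z : ℕ → {Z : Set α // Z ⊆ X ∧ μ Z = μ X} := fun n => Nat.rec ⟨X, subset_rfl, rfl⟩
    (fun _ Z => ⟨Z.1 \ s Z, sdiff_subset.trans Z.2.1, hs3 Z⟩) n with hZ
  have hZs : ∀ n, (Z (n + 1)).1 = (Z n).1 \ s (Z n) := fun n => rfl
  have hZmono : Antitone (fun n => (Z n).1) := by
    apply antitone_nat_of_succ_le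
    intro n
    change (Z (n + 1)).1 ⊆ (Z n).1
    rw [hZs]
    exact sdiff_subset
  refine ⟨fun k => s (Z k), fun k => ⟨(hs1 (Z k)).trans (Z k).2.1, hs2 (Z k)⟩, ?_⟩
  have key : ∀ i j, i < j → Disjoint (s (Z i)) (s (Z j)) := by
    intro i j hij
    rw [disjoint_left]
    intro x hxi hxj
    have h1 : x ∈ (Z (i + 1)).1 := hZmono (Nat.succ_le_of_lt hij) (hs1 (Z j) hxj)
    rw [hZs] at h1
    exact h1.2 hxi
  intro i j hij
  rcases lt_or_gt_of_ne hij with h | h
  · exact key i j h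
  · exact (key j i h).symm

end Pool.Agent.Lib.MP_a54a32_lc
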