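import Pool.Agent.Lib.MP_a54a32_lc.Split

/-!
Free sets of almost full outer measure for set mappings with finite images.
-/

namespace Pool.Agent.Lib.MP_a54a32_lc

open MeasureTheory Set TopologicalSpace Filter MeasureTheory.Measure
open scoped ENNReal Topology

/-- The limsup argument: a finite-set-valued map cannot meet infinitely many disjoint sets on
a large set of arguments. -/
theorem cut_aux {α : Type*} [MeasurableSpace α] (μ : Measure α) {P : Set α} (hP : μ P ≠ ∞)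
    (F : α → Set α) (hF : ∀ x, (F x).Finite) (T : ℕ → Set α)
    (hT : Pairwise (Function.onFun Disjoint T)) {ε : ℝ≥0∞} (hε : ε ≠ 0) :
    ∃ k, μ P ≤ μ {x | x ∈ P ∧ Disjoint (F x) (T k)} + ε := by
  by_contra hcon
  push Not at hcon
  set X : ℕ → Set α := fun k => {x | x ∈ P ∧ Disjoint (F x) (T k)} with hX
  set H : ℕ → Set α := fun k => toMeasurable μ (X k) with hH
  have hHm : ∀ k, MeasurableSet (H k) := fun k => measurableSet_toMeasurable _ _
  have hXfin : ∀ k, μ (X k) ≠ ∞ := fun k => ne_top_of_le_ne_top hP (measure_mono fun x hx => hx.1)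
  have hbig : ∀ k, ε ≤ μ ((H k)ᶜ ∩ P) := by
    intro k
    have h1 : μ (P ∩ H k) + μ (P \ H k) = μ P := measure_inter_add_sdiff P (hHm k)
    have h2 : μ (P ∩ H k) ≤ μ (X k) :=
      (measure_mono inter_subset_right).trans (measure_toMeasurable (X k)).le
    have h3 : μ (X k) + ε ≤ μ (X k) + μ (P \ H k) := by
      refine (hcon k).le.trans ?_
      rw [← h1]
      exact add_le_add h2 le_rfl
    have h4 := (ENNReal.add_le_add_iff_left (hXfin k)).1 h3
    have h5 : P \ H k = (H k)ᶜ ∩ P := by rw [sdiff_eq, inter_comm]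
    rwa [h5] at h4
  set A : ℕ → Set α := fun n => ⋃ k ∈ Ici n, (H k)ᶜ with hA
  have hAm : ∀ n, MeasurableSet (A n) := fun n =>
    MeasurableSet.biUnion (to_countable _) (fun k _ => (hHm k).compl)
  have hAanti : Antitone A := by
    intro n m hnm
    exact biUnion_subset_biUnion_left (Ici_subset_Ici.2 hnm)
  have hfin : (μ.restrict P) (A 0) ≠ ∞ := by
    rw [Measure.restrict_apply (hAm 0)]
    exact ne_top_of_le_ne_top hP (measure_mono inter_subset_right)
  have hL : ε ≤ (μ.restrict P) (⋂ n, A n) := by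
    rw [hAanti.measure_iInter (fun n => (hAm n).nullMeasurableSet) ⟨0, hfin⟩]
    refine le_iInf fun n => ?_
    rw [Measure.restrict_apply (hAm n)]
    refine (hbig n).trans (measure_mono (inter_subset_inter_left _ ?_))
    exact subset_biUnion_of_mem (u := fun k => (H k)ᶜ) (mem_Ici.2 le_rfl)
  have hne : (μ.restrict P) (⋂ n, A n) ≠ 0 := fun h => hε (le_antisymm (h ▸ hL) bot_le)
  rw [Measure.restrict_apply (MeasurableSet.iInter hAm)] at hne
  obtain ⟨x, hxA, hxP⟩ := nonempty_of_measure_ne_zero hne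
  have hinf : {k | ¬ Disjoint (F x) (T k)}.Infinite := by
    rw [Set.infinite_iff_exists_gt]
    intro n
    have hx1 := mem_iInter.1 hxA (n + 1)
    obtain ⟨k, hk, hxk⟩ := mem_iUnion₂.1 hx1
    refine ⟨k, ?_, Nat.lt_of_succ_le (mem_Ici.1 hk)⟩
    intro hd
    exact hxk (subset_toMeasurable μ (X k) ⟨hxP, hd⟩)
  have hg : ∀ k, ¬ Disjoint (F x) (T k) → ∃ y, y ∈ F x ∧ y ∈ T k := fun k hk =>
    not_disjoint_iff.1 hk
  have hne0 : Nonempty α := ⟨x⟩
  choose! g hgF hgT using hg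
  refine hinf (Set.Finite.of_injOn (f := g) (t := F x) (fun k hk => hgF k hk) ?_ (hF x))
  intro i hi j hj hij
  by_contra hne'
  have h1 := hgT i hi
  have h2 := hgT j hj
  rw [← hij] at h2
  exact disjoint_left.1 (hT hne') h1 h2

/-- If `Q' ⊆ Q` is almost full in `Q`, then it may replace `Q` in unions. -/
theorem union_le {α : Type*} [MeasurableSpace α] (μ : Measure α) {Q Q' : Set α} (Z : Set α)
    {δ : ℝ≥0∞} (h : μ Q ≤ μ Q' + δ) (hs : Q' ⊆ Q) (hfin : μ Q' ≠ ∞) :
    μ (Z ∪ Q) ≤ μ (Z ∪ Q') + δ := by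
  set H := toMeasurable μ (Z ∪ Q') with hH
  have hHm : MeasurableSet H := measurableSet_toMeasurable _ _
  have hsub : Z ∪ Q' ⊆ H := subset_toMeasurable _ _
  have h1 : μ (Q ∩ H) + μ (Q \ H) = μ Q := measure_inter_add_sdiff Q hHm
  have h2 : μ Q' ≤ μ (Q ∩ H) := measure_mono (subset_inter hs (subset_union_right.trans hsub))
  have h3 : μ Q' + μ (Q \ H) ≤ μ Q' + δ := by
    refine le_trans ?_ h
    rw [← h1]
    exact add_le_add h2 le_rfl
  have h4 : μ (Q \ H) ≤ δ := (ENNReal.add_le_add_iff_left hfin).1 h3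
  have h5 : Z ∪ Q ⊆ H ∪ (Q \ H) := by
    rintro x (hx | hx)
    · exact Or.inl (hsub (Or.inl hx))
    · by_cases hxH : x ∈ H
      · exact Or.inl hxH
      · exact Or.inr ⟨hx, hxH⟩
  calc μ (Z ∪ Q) ≤ μ (H ∪ (Q \ H)) := measure_mono h5
    _ ≤ μ H + μ (Q \ H) := measure_union_le _ _
    _ ≤ μ (Z ∪ Q') + δ := by
      rw [hH, measure_toMeasurable]
      exact add_le_add le_rfl h4

variable {α : Type*} [TopologicalSpace α] [SecondCountableTopology α] [MeasurableSpace α]
  (μ : Measure α) [μ.OuterRegular] [NullSingletonClass μ]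

theorem cut {P Q : Set α} (hP : μ P ≠ ∞) (hQ : μ Q ≠ ∞)
    (F : α → Set α) (hF : ∀ x, (F x).Finite) {ε : ℝ≥0∞} (hε : ε ≠ 0) :
    ∃ Y ⊆ Q, μ Y = μ Q ∧ μ P ≤ μ {x | x ∈ P ∧ Disjoint (F x) Y} + ε := by
  obtain ⟨T, hT, hTd⟩ := exists_seq_full μ hQ
  obtain ⟨k, hk⟩ := cut_aux μ hP F hF T hTd hε
  exact ⟨T k, (hT k).1, (hT k).2, hk⟩

/-- Free sets of almost full outer measure, bounded rank. -/
theorem free_bounded (F : α → Set α) (hF : ∀ x, (F x).Finite) (c : α → ℕ)
    (hc : ∀ x, ∀ y ∈ F x, c y < c x) (j : ℕ) :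
    ∀ (n : ℕ) (R : Set α), μ R ≠ ∞ → (∀ x ∈ R, n ≤ c x ∧ c x < n + j) →
      ∀ δ : ℝ≥0∞, δ ≠ 0 → ∃ B ⊆ R, (∀ x ∈ B, ∀ y ∈ F x, y ∉ B) ∧ μ R ≤ μ B + δ := by
  induction j with
  | zero =>
    intro n R _ hR δ _
    have hR0 : R = ∅ := by
      rw [eq_empty_iff_forall_notMem]
      intro x hx
      have := hR x hx
      omega
    exact ⟨∅, empty_subset _, by simp, by rw [hR0]; simp⟩
  | succ j ih =>
    intro n R hRfin hR δ hδ
    have hδ2 : δ / 2 ≠ 0 := (ENNReal.half_pos hδ).ne'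
    set Q : Set α := {x | x ∈ R ∧ c x = n} with hQ
    set P : Set α := {x | x ∈ R ∧ n < c x} with hP
    have hfin : ∀ T ⊆ R, μ T ≠ ∞ := fun T hT => ne_top_of_le_ne_top hRfin (measure_mono hT)
    have hQR : Q ⊆ R := fun x hx => hx.1
    have hPR : P ⊆ R := fun x hx => hx.1
    obtain ⟨Y, hYQ, hY, hPle⟩ := cut μ (hfin P hPR) (hfin Q hQR) F hF hδ2
    set P' : Set α := {x | x ∈ P ∧ Disjoint (F x) Y} with hP'
    have hP'P : P' ⊆ P := fun x hx => hx.1
    obtain ⟨B', hB'P, hB'free, hB'⟩ := ih (n + 1) P' (hfin P' (hP'P.trans hPR))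
      (fun x hx => by
        have h1 := hx.1.2
        have h2 := hR x hx.1.1
        omega) (δ / 2) hδ2
    refine ⟨Y ∪ B', ?_, ?_, ?_⟩
    · exact union_subset (hYQ.trans hQR) (hB'P.trans (hP'P.trans hPR))
    · rintro x hx y hy hyB
      have hlt := hc x y hy
      have hyR : n ≤ c y := by
        rcases hyB with h | h
        · exact (hYQ h).2.ge
        · exact (hP'P (hB'P h)).2.le
      rcases hx with hx | hx
      · have := (hYQ hx).2
        omega
      · rcases hyB with h | h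
        · exact disjoint_left.1 (hB'P hx).2 hy h
        · exact hB'free x hx y hy h
    · have hRQP : R = P ∪ Q := by
        ext x
        simp only [hP, hQ, mem_union, mem_ofPred_eq]
        constructor
        · intro hx
          rcases Nat.eq_or_lt_of_le (hR x hx).1 with h | h
          · exact Or.inr ⟨hx, h.symm⟩
          · exact Or.inl ⟨hx, h⟩
        · rintro (h | h)
          · exact h.1
          · exact h.1
      have e1 : μ (P ∪ Q) ≤ μ (P ∪ Y) + 0 :=
        union_le μ P (by rw [add_zero, hY]) hYQ (hfin Y (hYQ.trans hQR))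
      have e2 : μ (Y ∪ P) ≤ μ (Y ∪ P') + δ / 2 :=
        union_le μ Y hPle hP'P (hfin P' (hP'P.trans hPR))
      have e3 : μ (Y ∪ P') ≤ μ (Y ∪ B') + δ / 2 :=
        union_le μ Y hB' hB'P (hfin B' (hB'P.trans (hP'P.trans hPR)))
      calc μ R = μ (P ∪ Q) := by rw [← hRQP]
        _ ≤ μ (Y ∪ P) := by rw [add_zero, union_comm P Y] at e1; exact e1
        _ ≤ μ (Y ∪ P') + δ / 2 := e2
        _ ≤ (μ (Y ∪ B') + δ / 2) + δ / 2 := add_le_add e3 le_rfl
        _ = μ (Y ∪ B') + δ := by rw [add_assoc, ENNReal.add_halves]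

/-- **Free sets of almost full outer measure.** -/
theorem free_sup [SigmaFinite μ] (F : α → Set α) (hF : ∀ x, (F x).Finite) (c : α → ℕ)
    (hc : ∀ x, ∀ y ∈ F x, c y < c x) (A : Set α) (v : ℝ≥0∞) (hv : v < μ A) :
    ∃ B ⊆ A, (∀ x ∈ B, ∀ y ∈ F x, y ∉ B) ∧ v < μ B := by
  set S : ℕ → Set α := fun n => {x | x ∈ A ∧ c x < n} ∩ spanningSets μ n with hS
  have hmono : Monotone S := by
    intro n m hnm
    rintro x ⟨⟨hx1, hx2⟩, hx3⟩
    exact ⟨⟨hx1, hx2.trans_le hnm⟩, monotone_spanningSets μ hnm hx3⟩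
  have hunion : ⋃ n, S n = A := by
    apply Subset.antisymm
    · exact iUnion_subset fun n x hx => hx.1.1
    · intro x hx
      refine mem_iUnion.2 ⟨max (c x + 1) (spanningSetsIndex μ x), ⟨hx, ?_⟩, ?_⟩
      · exact (Nat.lt_succ_self _).trans_le (le_max_left _ _)
      · exact monotone_spanningSets μ (le_max_right _ _) (mem_spanningSetsIndex μ x)
  have h1 : μ A = ⨆ n, μ (S n) := by
    rw [← hunion]
    exact hmono.directed_le.measure_iUnion
  rw [h1] at hv
  obtain ⟨n, hn⟩ := lt_iSup_iff.1 hv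
  have hfin : μ (S n) ≠ ∞ :=
    ne_top_of_le_ne_top (measure_spanningSets_lt_top μ n).ne (measure_mono inter_subset_right)
  obtain ⟨δ, hδ, hvδ⟩ := ENNReal.lt_iff_exists_add_pos_lt.1 hn
  obtain ⟨B, hBS, hfree, hB⟩ := free_bounded μ F hF c hc n 0 (S n) hfin
    (fun x hx => ⟨Nat.zero_le _, by rw [zero_add]; exact hx.1.2⟩) δ
    (by exact_mod_cast hδ.ne')
  refine ⟨B, fun x hx => (hBS hx).1.1, hfree, ?_⟩
  by_contra hle
  push Not at hle
  have : μ (S n) ≤ v + δ := hB.trans (add_le_add hle le_rfl)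
  exact absurd hvδ (not_lt.2 this)

end Pool.Agent.Lib.MP_a54a32_lc
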