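import Mathlib

/-!
Graphs in which any two vertices have only countably many common neighbours: there is a
well-founded relation that is total and for which every vertex has only finitely many
smaller neighbours.
-/

namespace Pool.Agent.Lib.MP_a54a32_lc

open Cardinal Set

universe u

variable {V : Type u}

/-- `S` contains every vertex that has two different neighbours in `S`. -/
def CNClosed (Adj : V → V → Prop) (S : Set V) : Prop :=
  ∀ x a b, a ∈ S → b ∈ S → a ≠ b → Adj x a → Adj x b → x ∈ S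

/-- The least closed superset. -/
def cl (Adj : V → V → Prop) (S : Set V) : Set V := ⋂₀ {C | S ⊆ C ∧ CNClosed Adj C}

theorem subset_cl (Adj : V → V → Prop) (S : Set V) : S ⊆ cl Adj S :=
  subset_sInter fun _ hC => hC.1

theorem cl_closed (Adj : V → V → Prop) (S : Set V) : CNClosed Adj (cl Adj S) := by
  intro x a b ha hb hab hxa hxb C hC
  exact hC.2 x a b (ha C hC) (hb C hC) hab hxa hxb

theorem cl_subset {Adj : V → V → Prop} {S C : Set V} (h : S ⊆ C) (hC : CNClosed Adj C) :
    cl Adj S ⊆ C := sInter_subset_of_mem ⟨h, hC⟩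

theorem cl_mono {Adj : V → V → Prop} {S T : Set V} (h : S ⊆ T) : cl Adj S ⊆ cl Adj T :=
  cl_subset (h.trans (subset_cl Adj T)) (cl_closed Adj T)

/-- One step of the closure. -/
def clStep (Adj : V → V → Prop) (S : Set V) : Set V :=
  S ∪ ⋃ p : {p : S × S // p.1 ≠ p.2}, {x | Adj x p.1.1 ∧ Adj x p.1.2}

theorem mk_clStep_le {Adj : V → V → Prop}
    (h : ∀ a b, a ≠ b → {x | Adj x a ∧ Adj x b}.Countable) (S : Set V) :
    #(clStep Adj S) ≤ max #S ℵ₀ := by
  have hℵ : ℵ₀ ≤ max #S ℵ₀ := le_max_right _ _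
  refine (mk_union_le _ _).trans ?_
  refine add_le_of_le hℵ (le_max_left _ _) ?_
  refine (mk_iUnion_le_sum_mk).trans ?_
  refine (sum_le_sum _ (fun _ => ℵ₀) ?_).trans ?_
  · intro p
    rw [le_aleph0_iff_set_countable]
    exact h _ _ (fun hh => p.2 (Subtype.ext hh))
  · rw [sum_const, lift_id, lift_id]
    refine mul_le_of_le hℵ ?_ hℵ
    refine (mk_subtype_le _).trans ?_
    rw [← mul_def]
    exact mul_le_of_le hℵ (le_max_left _ _) (le_max_left _ _)

theorem mk_cl_le {Adj : V → V → Prop}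
    (h : ∀ a b, a ≠ b → {x | Adj x a ∧ Adj x b}.Countable) (S : Set V) :
    #(cl Adj S) ≤ max #S ℵ₀ := by
  have hℵ : ℵ₀ ≤ max #S ℵ₀ := le_max_right _ _
  set U : ℕ → Set V := fun n => (clStep Adj)^[n] S with hU
  have hU0 : U 0 = S := rfl
  have hUs : ∀ n, U (n + 1) = clStep Adj (U n) := fun n => Function.iterate_succ_apply' _ _ _
  have hmono : Monotone U := by
    apply monotone_nat_of_le_succ
    intro n
    rw [hUs]
    exact subset_union_left
  have hcard : ∀ n, #(U n) ≤ max #S ℵ₀ := by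
    intro n
    induction n with
    | zero => rw [hU0]; exact le_max_left _ _
    | succ n ih =>
      rw [hUs]
      exact (mk_clStep_le h _).trans (max_le ih hℵ)
  have hsub : cl Adj S ⊆ ⋃ n, U n := by
    apply cl_subset
    · rw [← hU0]; exact subset_iUnion U 0
    · intro x a b ha hb hab hxa hxb
      obtain ⟨n, hn⟩ := mem_iUnion.1 ha
      obtain ⟨m, hm⟩ := mem_iUnion.1 hb
      have ha' : a ∈ U (max n m) := hmono (le_max_left _ _) hn
      have hb' : b ∈ U (max n m) := hmono (le_max_right _ _) hm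
      refine mem_iUnion.2 ⟨max n m + 1, ?_⟩
      rw [hUs]
      refine Or.inr (mem_iUnion.2 ⟨⟨(⟨a, ha'⟩, ⟨b, hb'⟩), ?_⟩, hxa, hxb⟩)
      intro hh
      exact hab (congrArg Subtype.val hh)
  refine (mk_le_mk_of_subset hsub).trans ?_
  have h1 : #(⋃ n, U n) ≤ sum (fun n => #(U n)) := by
    have := @mk_iUnion_le_sum_mk_lift V ℕ U
    simpa using this
  refine h1.trans ?_
  refine (sum_le_sum _ (fun _ => max #S ℵ₀) hcard).trans ?_
  rw [sum_const, lift_id', mk_nat, lift_aleph0]
  exact mul_le_of_le hℵ hℵ le_rfl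

/-- A well-founded relation, total on `X`, with finite sets of smaller neighbours. -/
def GoodOrder (Adj : V → V → Prop) (X : Set V) : Prop :=
  ∃ r : V → V → Prop, WellFounded r ∧ (∀ x ∈ X, ∀ y ∈ X, x ≠ y → r x y ∨ r y x) ∧
    ∀ x ∈ X, {y | y ∈ X ∧ r y x ∧ Adj y x}.Finite

theorem goodOrder_of_countable (Adj : V → V → Prop) {X : Set V} (hX : X.Countable) :
    GoodOrder Adj X := by
  obtain ⟨f, hf⟩ := Set.countable_iff_exists_injOn.1 hX
  refine ⟨fun x y => f x < f y, (measure f).wf, ?_, ?_⟩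
  · intro x hx y hy hxy
    rcases lt_trichotomy (f x) (f y) with h | h | h
    · exact Or.inl h
    · exact absurd (hf hx hy h) hxy
    · exact Or.inr h
  · intro x _
    apply Set.Finite.of_finite_image (f := f)
    · exact (Set.finite_Iio (f x)).subset (by rintro _ ⟨y, ⟨_, hy, _⟩, rfl⟩; exact hy)
    · exact hf.mono fun y hy => hy.1

theorem goodOrder (Adj : V → V → Prop) (hsymm : ∀ x y, Adj x y → Adj y x)
    (h : ∀ a b, a ≠ b → {x | Adj x a ∧ Adj x b}.Countable) :
    ∀ (κ : Cardinal.{u}) (X : Set V), #X = κ → GoodOrder Adj X := by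
  intro κ
  induction κ using Cardinal.lt_wf.induction with
  | _ κ ih =>
  intro X hXκ
  rcases le_or_gt κ ℵ₀ with hκ | hκ
  · apply goodOrder_of_countable
    rw [← le_aleph0_iff_set_countable, hXκ]
    exact hκ
  · obtain ⟨lo, wf, hord⟩ := exists_ord_eq_type_lt X
    -- the filtration
    set C : X → Set V := fun w => cl Adj (Subtype.val '' (Set.Iic w)) with hC
    have hCmono : Monotone C := fun a b hab => cl_mono (image_mono (Iic_subset_Iic.2 hab))
    have hCmem : ∀ v : X, (v : V) ∈ C v := fun v =>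
      subset_cl _ _ (mem_image_of_mem _ (mem_Iic.2 le_rfl))
    have hCclosed : ∀ w, CNClosed Adj (C w) := fun w => cl_closed _ _
    have hCcard : ∀ w, #(C w) < κ := by
      intro w
      refine lt_of_le_of_lt (mk_cl_le h _) (max_lt ?_ hκ)
      refine lt_of_le_of_lt mk_image_le ?_
      have h1 : #(Iio w) < κ := by
        have := mk_Iio_lt w hord
        rwa [hXκ] at this
      have h2 : (Iic w : Set X) ⊆ insert w (Iio w) := by
        intro v hv
        rcases eq_or_lt_of_le (mem_Iic.1 hv) with hh | hh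
        · exact Or.inl hh
        · exact Or.inr hh
      refine lt_of_le_of_lt (mk_le_mk_of_subset h2) ?_
      refine lt_of_le_of_lt mk_insert_le ?_
      exact add_lt_of_lt hκ.le h1 (one_lt_aleph0.trans hκ)
    have hne : ∀ v : X, {w : X | (v : V) ∈ C w}.Nonempty := fun v => ⟨v, hCmem v⟩
    set b : X → X := fun v => wellFounded_lt.min {w : X | (v : V) ∈ C w} (hne v) with hb
    have hbmem : ∀ v : X, (v : V) ∈ C (b v) := fun v =>
      wellFounded_lt.min_mem {w : X | (v : V) ∈ C w} (hne v)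
    have hbmin : ∀ (v w : X), w < b v → (v : V) ∉ C w := by
      intro v w hw hv
      exact wellFounded_lt.not_lt_min {w : X | (v : V) ∈ C w} hv hw
    -- the blocks
    set D : X → Set V := fun w => {v | ∃ hv : v ∈ X, b ⟨v, hv⟩ = w} with hD
    have hDC : ∀ w, D w ⊆ C w := by
      rintro w v ⟨hv, hbw⟩
      rw [← hbw]
      exact hbmem ⟨v, hv⟩
    have hDgood : ∀ w, GoodOrder Adj (D w) := fun w =>
      ih _ (lt_of_le_of_lt (mk_le_mk_of_subset (hDC w)) (hCcard w)) (D w) rfl
    choose r hrwf hrtot hrfin using hDgood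
    set rX : X → X → Prop := fun x y => b x < b y ∨ (b x = b y ∧ r (b y) x.1 y.1) with hrX
    have hacc : ∀ w : X, ∀ v : X, b v = w → Acc rX v := by
      intro w
      induction w using WellFoundedLT.induction with
      | ind w ihw =>
      have hin : ∀ u : V, ∀ v : X, v.1 = u → b v = w → Acc rX v := by
        intro u
        induction u using (hrwf w).induction with
        | _ u ihu =>
        rintro v rfl hv
        refine Acc.intro _ ?_
        rintro y (hlt | ⟨heq, hr⟩)
        · exact ihw (b y) (hv ▸ hlt) y rfl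
        · exact ihu y.1 (by rw [← hv]; exact hr) y rfl (heq.trans hv)
      intro v hv
      exact hin v.1 v rfl hv
    have hrXwf : WellFounded rX := ⟨fun v => hacc _ v rfl⟩
    refine ⟨fun x y => ∃ (hx : x ∈ X) (hy : y ∈ X), rX ⟨x, hx⟩ ⟨y, hy⟩, ?_, ?_, ?_⟩
    · have key : ∀ v : X, Acc (fun x y => ∃ (hx : x ∈ X) (hy : y ∈ X), rX ⟨x, hx⟩ ⟨y, hy⟩) v.1 := by
        intro v
        induction v using hrXwf.induction with
        | _ v ihv =>
        refine Acc.intro _ ?_
        rintro y ⟨hy, hv, hyv⟩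
        exact ihv ⟨y, hy⟩ hyv
      refine ⟨fun x => ?_⟩
      by_cases hx : x ∈ X
      · exact key ⟨x, hx⟩
      · refine Acc.intro _ ?_
        rintro y ⟨_, hx', _⟩
        exact absurd hx' hx
    · intro x hx y hy hxy
      rcases lt_trichotomy (b ⟨x, hx⟩) (b ⟨y, hy⟩) with hlt | heq | hlt
      · exact Or.inl ⟨hx, hy, Or.inl hlt⟩
      · have hxD : x ∈ D (b ⟨x, hx⟩) := ⟨hx, rfl⟩
        have hyD : y ∈ D (b ⟨x, hx⟩) := ⟨hy, heq.symm⟩
        rcases hrtot _ x hxD y hyD hxy with h1 | h1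
        · exact Or.inl ⟨hx, hy, Or.inr ⟨heq, by rw [← heq]; exact h1⟩⟩
        · exact Or.inr ⟨hy, hx, Or.inr ⟨heq.symm, h1⟩⟩
      · exact Or.inr ⟨hy, hx, Or.inl hlt⟩
    · intro x hx
      have hxD : x ∈ D (b ⟨x, hx⟩) := ⟨hx, rfl⟩
      -- the union of the earlier members of the filtration
      set U : Set V := ⋃ w : {w : X // w < b ⟨x, hx⟩}, C w.1 with hU
      have hxU : x ∉ U := by
        intro hxU
        obtain ⟨w, hw⟩ := mem_iUnion.1 hxU
        exact hbmin ⟨x, hx⟩ w.1 w.2 hw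
      have hUclosed : CNClosed Adj U := by
        intro z p q hp hq hpq hzp hzq
        obtain ⟨w, hw⟩ := mem_iUnion.1 hp
        obtain ⟨w', hw'⟩ := mem_iUnion.1 hq
        refine mem_iUnion.2 ⟨⟨max w.1 w'.1, max_lt w.2 w'.2⟩, ?_⟩
        exact hCclosed _ z p q (hCmono (le_max_left _ _) hw) (hCmono (le_max_right _ _) hw')
          hpq hzp hzq
      have hsub1 : {y | y ∈ U ∧ Adj y x}.Subsingleton := by
        rintro y ⟨hy, hyx⟩ z ⟨hz, hzx⟩
        by_contra hyz
        exact hxU (hUclosed x y z hy hz hyz (hsymm _ _ hyx) (hsymm _ _ hzx))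
      refine (hsub1.finite.union (hrfin (b ⟨x, hx⟩) x hxD)).subset ?_
      rintro y ⟨_, ⟨hy, _, hyx⟩, hadj⟩
      rcases hyx with hlt | ⟨heq, hr⟩
      · exact Or.inl ⟨mem_iUnion.2 ⟨⟨_, hlt⟩, hbmem ⟨y, hy⟩⟩, hadj⟩
      · exact Or.inr ⟨⟨hy, heq⟩, hr, hadj⟩

/-- Ranks and finite sets of lower neighbours. -/
theorem exists_rank (Adj : V → V → Prop) (hsymm : ∀ x y, Adj x y → Adj y x)
    (h : ∀ a b, a ≠ b → {x | Adj x a ∧ Adj x b}.Countable) :
    ∃ (c : V → ℕ) (F : V → Set V), (∀ x, (F x).Finite) ∧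
      (∀ x y, x ≠ y → Adj x y → y ∈ F x ∨ x ∈ F y) ∧ (∀ x, ∀ y ∈ F x, c y < c x) := by
  classical
  obtain ⟨r, hwf, htot, hfin⟩ := goodOrder Adj hsymm h _ (Set.univ : Set V) rfl
  set F : V → Set V := fun x => {y | y ∈ (Set.univ : Set V) ∧ r y x ∧ Adj y x} with hF
  have hFfin : ∀ x, (F x).Finite := fun x => hfin x (mem_univ x)
  set c : V → ℕ := hwf.fix (fun x ih =>
    ((hFfin x).toFinset.attach.sup (fun y => ih y.1 (((hFfin x).mem_toFinset.1 y.2).2.1) + 1)))
    with hc
  refine ⟨c, F, hFfin, ?_, ?_⟩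
  · intro x y hxy hadj
    rcases htot x (mem_univ x) y (mem_univ y) hxy with h1 | h1
    · exact Or.inr ⟨mem_univ x, h1, hadj⟩
    · exact Or.inl ⟨mem_univ y, h1, hsymm _ _ hadj⟩
  · intro x y hy
    have h1 : c x = (hFfin x).toFinset.attach.sup (fun y => c y.1 + 1) := by
      rw [hc, WellFounded.fix_eq]
    have h2 : c y + 1 ≤ (hFfin x).toFinset.attach.sup (fun y => c y.1 + 1) :=
      Finset.le_sup (f := fun y : {y // y ∈ (hFfin x).toFinset} => c y.1 + 1)
        (Finset.mem_attach _ ⟨y, (hFfin x).mem_toFinset.2 hy⟩)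
    omega

end Pool.Agent.Lib.MP_a54a32_lc
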