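import Mathlib

/-!
Lusin's theorem: every set of positive finite outer measure has a subset such that both it and
its complement have full outer measure.
-/

namespace Pool.Agent.Lib.MP_a54a32_lc

open MeasureTheory Set TopologicalSpace
open scoped ENNReal

/-- The Fubini argument. -/
theorem fubini_contra {α β : Type*} [TopologicalSpace α] [SecondCountableTopology α]
    [MeasurableSpace α] (μ : Measure α) [μ.OuterRegular]
    [MeasurableSpace β] (hall : ∀ s : Set β, MeasurableSet s) (ν : Measure β) [IsFiniteMeasure ν]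
    (f : β → α) (hf : ∀ U : Set α, IsOpen U → ν (f ⁻¹' U) ≤ μ U)
    (r : β → β → Prop) (htri : ∀ x y, x ≠ y → r x y ∨ r y x)
    (hsing : ∀ x, μ {f x} = 0) (hnull : ∀ y, μ (f '' {z | r z y}) = 0) : ν univ = 0 := by
  have hnull' : ∀ S : Set β, μ (f '' S) = 0 → ν S = 0 := by
    intro S hS
    by_contra hne
    obtain ⟨U, hSU, hU, hμU⟩ := (f '' S).exists_isOpen_lt_of_lt (ν S)
      (by rw [hS]; exact pos_iff_ne_zero.2 hne)
    have h1 : ν S ≤ ν (f ⁻¹' U) := measure_mono (image_subset_iff.1 hSU)
    exact absurd (h1.trans (hf U hU)) (not_le.2 hμU)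
  by_contra hne
  set δ := ν univ / 2 with hδdef
  have hδ : 0 < δ := ENNReal.half_pos hne
  have hδlt : δ < ν univ := ENNReal.half_lt_self hne (measure_ne_top _ _)
  have hU : ∀ y, ∃ U, f '' {z | r z y} ⊆ U ∧ IsOpen U ∧ μ U < δ := by
    intro y
    obtain ⟨U, h1, h2, h3⟩ := (f '' {z | r z y}).exists_isOpen_lt_of_lt δ
      (by rw [hnull y]; exact hδ)
    exact ⟨U, h1, h2, h3⟩
  choose U hUsub hUo hUμ using hU
  set E : Set (β × β) := {p | f p.1 ∈ U p.2} with hEdef
  have hE : MeasurableSet E := by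
    have : E = ⋃ s ∈ countableBasis α, (f ⁻¹' s) ×ˢ {y | s ⊆ U y} := by
      ext ⟨x, y⟩
      simp only [hEdef, mem_ofPred_eq, mem_iUnion, mem_prod, mem_preimage, exists_prop]
      constructor
      · intro hx
        obtain ⟨s, hs, hxs, hsU⟩ := (isBasis_countableBasis α).exists_subset_of_mem_open hx (hUo y)
        exact ⟨s, hs, hxs, hsU⟩
      · rintro ⟨s, _, hxs, hsU⟩
        exact hsU hxs
    rw [this]
    exact MeasurableSet.biUnion (countable_countableBasis α)
      (fun s _ => (hall _).prod (hall _))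
  have h1 : (ν.prod ν) E ≤ δ * ν univ := by
    rw [Measure.prod_apply_symm hE]
    calc ∫⁻ y, ν ((fun x => (x, y)) ⁻¹' E) ∂ν ≤ ∫⁻ _y, δ ∂ν :=
          lintegral_mono (fun y => (hf (U y) (hUo y)).trans (hUμ y).le)
      _ = δ * ν univ := lintegral_const _
  have h2 : ν univ * ν univ ≤ (ν.prod ν) E := by
    rw [Measure.prod_apply hE]
    calc ν univ * ν univ = ∫⁻ _x, ν univ ∂ν := (lintegral_const _).symm
      _ ≤ ∫⁻ x, ν (Prod.mk x ⁻¹' E) ∂ν := by
          apply lintegral_mono
          intro x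
          have hsub : (univ : Set β) ⊆ (Prod.mk x ⁻¹' E) ∪ ({y | r y x} ∪ {x}) := by
            intro y _
            by_cases hxy : x = y
            · exact Or.inr (Or.inr hxy.symm)
            · rcases htri x y hxy with h | h
              · exact Or.inl (hUsub y ⟨x, h, rfl⟩)
              · exact Or.inr (Or.inl h)
          calc ν univ ≤ ν ((Prod.mk x ⁻¹' E) ∪ ({y | r y x} ∪ {x})) := measure_mono hsub
            _ ≤ ν (Prod.mk x ⁻¹' E) + (ν {y | r y x} + ν {x}) :=
              (measure_union_le _ _).trans (by gcongr; exact measure_union_le _ _)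
            _ = ν (Prod.mk x ⁻¹' E) := by
              rw [hnull' _ (hnull x), hnull' {x} (by rw [image_singleton]; exact hsing x)]
              simp
  have h3 : ν univ * ν univ ≤ δ * ν univ := h2.trans h1
  have h4 : ν univ ≤ δ := by
    have := (ENNReal.mul_le_mul_iff_left hne (measure_ne_top ν univ)).1 h3
    exact this
  exact absurd h4 (not_le.2 hδlt)

variable {α : Type*} [TopologicalSpace α] [SecondCountableTopology α] [MeasurableSpace α]
  (μ : Measure α) [μ.OuterRegular] [NullSingletonClass μ]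

/-- A set of positive finite outer measure has a subset that splits it non-additively. -/
theorem exists_nonadditive {X : Set α} (hX0 : μ X ≠ 0) (hX : μ X ≠ ∞) :
    ∃ Y ⊆ X, μ X < μ Y + μ (X \ Y) := by
  by_contra hcon
  push Not at hcon
  have hfin : ∀ T ⊆ X, μ T ≠ ∞ := fun T hT => ne_top_of_le_ne_top hX (measure_mono hT)
  have hnullpart : ∀ S ⊆ X, μ ((X \ S) ∩ toMeasurable μ S) = 0 := by
    intro S hS
    set H := toMeasurable μ S with hH
    have hHm : MeasurableSet H := measurableSet_toMeasurable _ _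
    have hSH : S ⊆ H := subset_toMeasurable _ _
    have e1 : μ (X ∩ H) + μ (X \ H) = μ X := measure_inter_add_sdiff X hHm
    have e2 : μ (X ∩ H) = μ S := by
      apply le_antisymm
      · exact (measure_mono inter_subset_right).trans (measure_toMeasurable S).le
      · exact measure_mono (subset_inter hS hSH)
    have e3 : μ ((X \ S) ∩ H) + μ ((X \ S) \ H) = μ (X \ S) := measure_inter_add_sdiff _ hHm
    have e4 : (X \ S) \ H = X \ H := by
      ext x
      simp only [mem_sdiff]
      constructor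
      · rintro ⟨⟨h1, _⟩, h2⟩; exact ⟨h1, h2⟩
      · rintro ⟨h1, h2⟩; exact ⟨⟨h1, fun h => h2 (hSH h)⟩, h2⟩
    rw [e4] at e3
    have e5 : μ S + μ (X \ S) ≤ μ S + μ (X \ H) := by
      rw [← e2, e1, e2]; exact hcon S hS
    have e6 : μ (X \ S) ≤ μ (X \ H) := (ENNReal.add_le_add_iff_left (hfin S hS)).1 e5
    rw [← e3] at e6
    have hfin' : μ (X \ H) ≠ ∞ := hfin _ sdiff_subset
    have e7 : μ ((X \ S) ∩ H) + μ (X \ H) ≤ 0 + μ (X \ H) := by rw [zero_add]; exact e6
    exact le_antisymm ((ENNReal.add_le_add_iff_right hfin').1 e7) bot_le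
  have hcar : ∀ S ⊆ X, ∀ T ⊆ X, μ (T ∩ S) + μ (T \ S) ≤ μ T := by
    intro S hS T hT
    set H := toMeasurable μ S with hH
    have hHm : MeasurableSet H := measurableSet_toMeasurable _ _
    have hSH : S ⊆ H := subset_toMeasurable _ _
    have e1 : μ (T ∩ H) + μ (T \ H) = μ T := measure_inter_add_sdiff T hHm
    rw [← e1]
    apply add_le_add (measure_mono (inter_subset_inter_right _ hSH))
    have hsub : T \ S ⊆ (T \ H) ∪ ((X \ S) ∩ H) := by
      rintro x ⟨h1, h2⟩
      by_cases hx : x ∈ H
      · exact Or.inr ⟨⟨hT h1, h2⟩, hx⟩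
      · exact Or.inl ⟨h1, hx⟩
    calc μ (T \ S) ≤ μ ((T \ H) ∪ ((X \ S) ∩ H)) := measure_mono hsub
      _ ≤ μ (T \ H) + μ ((X \ S) ∩ H) := measure_union_le _ _
      _ = μ (T \ H) := by rw [hnullpart S hS, add_zero]
  -- a subset all of whose initial segments are null
  obtain ⟨X', hX'X, hX'0, hseg⟩ : ∃ X' ⊆ X, μ X' ≠ 0 ∧
      ∀ y ∈ X', μ {z | z ∈ X' ∧ WellOrderingRel z y} = 0 := by
    by_cases hex : ∃ x, μ {z | z ∈ X ∧ WellOrderingRel z x} ≠ 0
    · have hwf : WellFounded (WellOrderingRel : α → α → Prop) := IsWellFounded.wf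
      set x₀ := hwf.min {x | μ {z | z ∈ X ∧ WellOrderingRel z x} ≠ 0} hex with hx₀
      refine ⟨{z | z ∈ X ∧ WellOrderingRel z x₀}, fun z hz => hz.1,
        hwf.min_mem {x | μ {z | z ∈ X ∧ WellOrderingRel z x} ≠ 0} hex, ?_⟩
      rintro y ⟨_, hy⟩
      have h1 : ¬ (μ {z | z ∈ X ∧ WellOrderingRel z y} ≠ 0) := by
        intro h
        exact hwf.not_lt_min {x | μ {z | z ∈ X ∧ WellOrderingRel z x} ≠ 0} h hy
      push Not at h1
      refine measure_mono_null ?_ h1
      rintro z ⟨hz, hzy⟩
      exact ⟨hz.1, hzy⟩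
    · push Not at hex
      exact ⟨X, subset_rfl, hX0, fun y _ => hex y⟩
  let _inst : MeasurableSpace X' := ⊤
  set m : OuterMeasure X' := OuterMeasure.comap Subtype.val μ.toOuterMeasure with hm
  have hmapp : ∀ S : Set X', m S = μ (Subtype.val '' S) := fun S => by
    rw [hm, OuterMeasure.comap_apply]; rfl
  have hmc : (⊤ : MeasurableSpace X') ≤ m.caratheodory := by
    intro S _
    rw [OuterMeasure.isCaratheodory_iff_le]
    intro T
    rw [hmapp, hmapp, hmapp, image_inter Subtype.val_injective, image_sdiff Subtype.val_injective]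
    apply hcar
    · rintro _ ⟨x, _, rfl⟩; exact hX'X x.2
    · rintro _ ⟨x, _, rfl⟩; exact hX'X x.2
  set ν : Measure X' := m.toMeasure hmc with hν
  have hνapp : ∀ S : Set X', ν S = μ (Subtype.val '' S) := fun S => by
    rw [hν, toMeasure_apply m hmc (show MeasurableSet S from trivial), hmapp]
  have huniv : ν univ = μ X' := by rw [hνapp, image_univ, Subtype.range_coe]
  have hfinν : IsFiniteMeasure ν := ⟨by rw [huniv]; exact (hfin X' hX'X).lt_top⟩
  have hallm : ∀ s : Set X', @MeasurableSet X' ⊤ s := fun s => trivial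
  have := @fubini_contra α X' _ _ _ μ _ ⊤ hallm ν hfinν
    (Subtype.val : X' → α) (fun U _ => by
      rw [hνapp, Subtype.image_preimage_coe]; exact measure_mono inter_subset_right)
    (fun x y => WellOrderingRel x.1 y.1)
    (fun x y hxy => by
      rcases trichotomous_of (WellOrderingRel : α → α → Prop) x.1 y.1 with h | h | h
      · exact Or.inl h
      · exact absurd (Subtype.ext h) hxy
      · exact Or.inr h)
    (fun x => measure_singleton _)
    (fun y => by
      refine measure_mono_null ?_ (hseg y.1 y.2)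
      rintro _ ⟨z, hz, rfl⟩
      exact ⟨z.2, hz⟩)
  rw [huniv] at this
  exact hX'0 this

end Pool.Agent.Lib.MP_a54a32_lc
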