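import Pool.Agent.Lib.MP_a54a32_lc.Cut

/-!
Uncountably many pairwise disjoint subsets of full outer measure.
-/

namespace Pool.Agent.Lib.MP_a54a32_lc

open MeasureTheory Set TopologicalSpace Filter MeasureTheory.Measure
open scoped ENNReal Topology

/-- Transfinite choice of pairwise disjoint countable sets. -/
theorem exists_disjoint_family {Ω : Type*} [LinearOrder Ω] [WellFoundedLT Ω]
    (hΩ : ∀ i : Ω, (Iio i).Countable) {β : Type*} (P : Set β → Prop)
    (hP : ∀ C : Set β, C.Countable → ∃ J : Set β, J.Countable ∧ Disjoint J C ∧ P J) :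
    ∃ f : Ω → Set β, (∀ i, P (f i)) ∧ Pairwise (Function.onFun Disjoint f) := by
  choose! g hg1 hg2 hg3 using hP
  have hwf : WellFounded (LT.lt : Ω → Ω → Prop) := wellFounded_lt
  let f : Ω → {J : Set β // J.Countable} := hwf.fix (fun i IH =>
    ⟨g (⋃ j : Iio i, (IH j.1 j.2).1), by
      have : Countable (Iio i) := (hΩ i).to_subtype
      exact hg1 _ (countable_iUnion fun j => (IH j.1 j.2).2)⟩)
  have hf : ∀ i, (f i).1 = g (⋃ j : Iio i, (f j.1).1) := by
    intro i
    have := hwf.fix_eq (fun i IH => (⟨g (⋃ j : Iio i, (IH j.1 j.2).1), by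
      have : Countable (Iio i) := (hΩ i).to_subtype
      exact hg1 _ (countable_iUnion fun j => (IH j.1 j.2).2)⟩ : {J : Set β // J.Countable})) i
    exact congrArg Subtype.val this
  have hc : ∀ i, (⋃ j : Iio i, (f j.1).1).Countable := by
    intro i
    have : Countable (Iio i) := (hΩ i).to_subtype
    exact countable_iUnion fun j => (f j.1).2
  have key : ∀ i j, j < i → Disjoint (f i).1 (f j).1 := by
    intro i j hji
    rw [hf i]
    refine (hg2 _ (hc i)).mono_right ?_
    exact subset_iUnion_of_subset (⟨j, hji⟩ : Iio i) subset_rfl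
  refine ⟨fun i => (f i).1, fun i => ?_, ?_⟩
  · change P (f i).1
    rw [hf i]
    exact hg3 _ (hc i)
  · intro i j hij
    rcases lt_or_gt_of_ne hij with h | h
    · exact (key j i h).symm
    · exact key i j h

/-- A monotone function on a family of sets closed under countable unions attains its maximum. -/
theorem exists_max {β : Type*} (𝒞 : Set (Set β)) (hne : 𝒞.Nonempty)
    (hun : ∀ C : ℕ → Set β, (∀ n, C n ∈ 𝒞) → (⋃ n, C n) ∈ 𝒞) (m : Set β → ℝ≥0∞)
    (hm : Monotone m) : ∃ C ∈ 𝒞, ∀ C' ∈ 𝒞, m C' ≤ m C := by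
  have hSne : (m '' 𝒞).Nonempty := hne.image m
  obtain ⟨u, -, hu, huS⟩ := exists_seq_tendsto_sSup hSne (OrderTop.bddAbove _)
  choose C hC hCu using huS
  refine ⟨⋃ n, C n, hun C hC, fun C' hC' => ?_⟩
  refine (le_sSup (mem_image_of_mem m hC')).trans ?_
  refine le_of_tendsto' hu (fun n => ?_)
  rw [← hCu n]
  exact hm (subset_iUnion C n)

/-- An antitone function on a family of sets closed under countable unions attains its minimum. -/
theorem exists_min {β : Type*} (𝒞 : Set (Set β)) (hne : 𝒞.Nonempty)
    (hun : ∀ C : ℕ → Set β, (∀ n, C n ∈ 𝒞) → (⋃ n, C n) ∈ 𝒞) (m : Set β → ℝ≥0∞)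
    (hm : ∀ C ∈ 𝒞, ∀ C' ∈ 𝒞, C ⊆ C' → m C' ≤ m C) : ∃ C ∈ 𝒞, ∀ C' ∈ 𝒞, m C ≤ m C' := by
  have hSne : (m '' 𝒞).Nonempty := hne.image m
  obtain ⟨u, -, hu, huS⟩ := exists_seq_tendsto_sInf hSne (OrderBot.bddBelow _)
  choose C hC hCu using huS
  refine ⟨⋃ n, C n, hun C hC, fun C' hC' => ?_⟩
  refine le_trans ?_ (sInf_le (mem_image_of_mem m hC'))
  refine ge_of_tendsto' hu (fun n => ?_)
  rw [← hCu n]
  exact hm _ (hC n) _ (hun C hC) (subset_iUnion C n)

/-- If every non-null subset of `X` contains uncountably many (indexed by `Ω`) pairwise disjoint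
non-null sets, then `X` contains `Ω` pairwise disjoint sets of full outer measure. -/
theorem exists_omega_full {α : Type*} [MeasurableSpace α] (μ : Measure α) {Ω : Type*}
    [LinearOrder Ω] [WellFoundedLT Ω] (hΩ : ∀ i : Ω, (Iio i).Countable) [Uncountable Ω]
    {X : Set α} (hX : μ X ≠ ∞)
    (hsplit : ∀ Y ⊆ X, μ Y ≠ 0 → ∃ S : Ω → Set α, (∀ i, S i ⊆ Y ∧ μ (S i) ≠ 0) ∧
      Pairwise (Function.onFun Disjoint S)) :
    ∃ T : Ω → Set α, (∀ i, T i ⊆ X ∧ μ (T i) = μ X) ∧
      Pairwise (Function.onFun Disjoint T) := by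
  have hfin : ∀ T ⊆ X, μ T ≠ ∞ := fun T hT => ne_top_of_le_ne_top hX (measure_mono hT)
  obtain ⟨G, ⟨hGm, T, hT, hTd⟩, hG0⟩ := exhaustion μ hX
    (fun E => MeasurableSet E ∧ ∃ T : Ω → Set α, (∀ i, T i ⊆ X ∩ E ∧ μ (T i) = μ (X ∩ E)) ∧
      Pairwise (Function.onFun Disjoint T))
    (fun E hE => hE.1)
    ⟨MeasurableSet.empty, fun _ => ∅, fun i => by simp, fun i j _ => by
      simp [Function.onFun]⟩
    (by
      rintro E D ⟨hEm, T, hT, hTd⟩ hDm hDE
      refine ⟨hDm, fun i => T i ∩ D, fun i => ⟨?_, ?_⟩, ?_⟩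
      · exact subset_inter (inter_subset_left.trans ((hT i).1.trans inter_subset_left))
          inter_subset_right
      · have h1 := measure_inter_eq_of_measure_eq (μ := μ) hDm (hT i).2 (hT i).1
          (hfin _ ((hT i).1.trans inter_subset_left))
        rw [h1, inter_assoc, inter_eq_self_of_subset_right hDE]
      · intro i j hij
        exact (hTd hij).mono inter_subset_left inter_subset_left)
    (by
      rintro E hE hdisj
      choose hEm T hT hTd using hE
      refine ⟨MeasurableSet.iUnion hEm, fun i => ⋃ n, T n i, fun i => ⟨?_, ?_⟩, ?_⟩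
      · rw [inter_iUnion]; exact iUnion_mono fun n => (hT n i).1
      · rw [inter_iUnion]
        exact measure_iUnion_congr_of_subset (fun n => (hT n i).1) (fun n => (hT n i).2.ge)
      · intro i j hij
        simp only [Function.onFun]
        rw [disjoint_left]
        intro x hxi hxj
        obtain ⟨n, hn⟩ := mem_iUnion.1 hxi
        obtain ⟨m, hm⟩ := mem_iUnion.1 hxj
        by_cases hnm : n = m
        · subst hnm
          exact disjoint_left.1 (hTd n hij) hn hm
        · exact disjoint_left.1 (hdisj hnm) ((hT n i).1 hn).2 ((hT m j).1 hm).2)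
    (by
      intro G hGm hG0
      set Y := X \ G with hY
      obtain ⟨S, hS, hSd⟩ := hsplit Y sdiff_subset hG0
      set U : Set Ω → Set α := fun J => ⋃ i ∈ J, S i with hU
      have hUY : ∀ J, U J ⊆ Y := fun J => iUnion₂_subset fun i _ => (hS i).1
      have hUfin : ∀ J, μ (U J) ≠ ∞ := fun J => hfin _ ((hUY J).trans sdiff_subset)
      have hUmono : Monotone fun J => μ (U J) := fun J J' h =>
        measure_mono (biUnion_subset_biUnion_left h)
      have hUdis : ∀ J J', Disjoint J J' → Disjoint (U J) (U J') := by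
        intro J J' h
        rw [disjoint_left]
        intro x hx hx'
        obtain ⟨i, hi, hxi⟩ := mem_iUnion₂.1 hx
        obtain ⟨j, hj, hxj⟩ := mem_iUnion₂.1 hx'
        have hij : i ≠ j := by
          rintro rfl
          exact disjoint_left.1 h hi hj
        exact disjoint_left.1 (hSd hij) hxi hxj
      -- maximal countable unions avoiding a countable set of indices
      have hmax : ∀ C : Set Ω, ∃ J ∈ {J : Set Ω | J.Countable ∧ Disjoint J C},
          ∀ J' ∈ {J : Set Ω | J.Countable ∧ Disjoint J C}, μ (U J') ≤ μ (U J) := by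
        intro C
        refine exists_max {J : Set Ω | J.Countable ∧ Disjoint J C} ⟨∅, countable_empty, by simp⟩
          ?_ _ hUmono
        intro D hD
        exact ⟨countable_iUnion fun n => (hD n).1, disjoint_iUnion_left.2 fun n => (hD n).2⟩
      choose J hJ hJmax using hmax
      obtain ⟨C₀, hC₀, hC₀min⟩ := exists_min {C : Set Ω | C.Countable} ⟨∅, countable_empty⟩
        (fun D hD => countable_iUnion hD) (fun C => μ (U (J C))) (by
          intro C _ C' _ hCC'
          refine hJmax C _ ?_
          exact ⟨(hJ C').1, (hJ C').2.mono_right hCC'⟩)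
      set v₀ := μ (U (J C₀)) with hv₀
      have hv₀0 : v₀ ≠ 0 := by
        have hex : ∃ i, i ∉ C₀ := by
          by_contra hall
          push Not at hall
          have : C₀ = univ := eq_univ_of_forall hall
          have hc : (univ : Set Ω).Countable := this ▸ hC₀
          exact not_countable (countable_univ_iff.1 hc)
        obtain ⟨i, hi⟩ := hex
        have h1 := hJmax C₀ {i} ⟨countable_singleton i, by simpa using hi⟩
        have h2 : U {i} = S i := by simp [hU]
        rw [h2] at h1
        intro h0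
        rw [← hv₀, h0] at h1
        exact (hS i).2 (le_antisymm h1 bot_le)
      set H := toMeasurable μ (U (J C₀)) with hH
      have hHm : MeasurableSet H := measurableSet_toMeasurable _ _
      set E := H \ G with hE
      have hEm : MeasurableSet E := hHm.diff hGm
      have hUE : U (J C₀) ⊆ E := fun x hx =>
        ⟨subset_toMeasurable _ _ hx, (hUY _ hx).2⟩
      have hμE : μ E = v₀ := by
        apply le_antisymm
        · exact (measure_mono sdiff_subset).trans (measure_toMeasurable _).le
        · exact measure_mono hUE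
      have hXE : X ∩ E = Y ∩ E := by
        ext x
        simp only [hY, hE, mem_inter_iff, Set.mem_sdiff]
        tauto
      have hfam : ∀ C : Set Ω, C.Countable → ∃ D : Set Ω, D.Countable ∧ Disjoint D C ∧
          (U D ∩ E ⊆ X ∩ E ∧ μ (U D ∩ E) = μ (X ∩ E)) := by
        intro C hC
        have hC' : (C ∪ C₀).Countable := hC.union hC₀
        refine ⟨J (C ∪ C₀), (hJ _).1, (hJ _).2.mono_right subset_union_left, ?_, ?_⟩
        · exact inter_subset_inter_left _ ((hUY _).trans sdiff_subset)
        · have e1 : μ (U (J (C ∪ C₀))) = v₀ := by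
            apply le_antisymm
            · exact hJmax C₀ _ ⟨(hJ _).1, (hJ _).2.mono_right subset_union_right⟩
            · exact hC₀min _ hC'
          have e2 : μ (U (J (C ∪ C₀) ∪ J C₀)) = v₀ := by
            apply le_antisymm
            · exact hJmax C₀ _ ⟨(hJ _).1.union (hJ _).1,
                disjoint_union_left.2 ⟨(hJ _).2.mono_right subset_union_right, (hJ _).2⟩⟩
            · exact hUmono subset_union_right
          have e3 := measure_inter_eq_of_measure_eq (μ := μ) hEm (e1.trans e2.symm)
            (biUnion_subset_biUnion_left subset_union_left) (hUfin _)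
          apply le_antisymm
          · exact measure_mono (inter_subset_inter_left _ ((hUY _).trans sdiff_subset))
          · rw [e3]
            refine (measure_mono inter_subset_right).trans ?_
            rw [hμE, hv₀]
            apply measure_mono
            exact subset_inter (biUnion_subset_biUnion_left subset_union_right) hUE
      obtain ⟨f, hf, hfd⟩ := exists_disjoint_family hΩ
        (fun D => U D ∩ E ⊆ X ∩ E ∧ μ (U D ∩ E) = μ (X ∩ E)) hfam
      refine ⟨E, ⟨hEm, fun i => U (f i) ∩ E, fun i => hf i, ?_⟩, ?_⟩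
      · intro i j hij
        exact (hUdis _ _ (hfd hij)).mono inter_subset_left inter_subset_left
      · intro h0
        apply hv₀0
        exact measure_mono_null (subset_inter (hUY _) hUE) h0)
  have hXG : μ (X ∩ G) = μ X := by
    have h1 := measure_inter_add_sdiff (μ := μ) X hGm
    rw [hG0, add_zero] at h1
    exact h1
  exact ⟨T, fun i => ⟨(hT i).1.trans inter_subset_left, (hT i).2.trans hXG⟩, hTd⟩

/-- For a family of pairwise disjoint sets, all but countably many of them are avoided by a
finite-set-valued map on a subset of full outer measure. -/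
theorem countable_bad {α : Type*} [MeasurableSpace α] (μ : Measure α) {P : Set α} (hP : μ P ≠ ∞)
    (F : α → Set α) (hF : ∀ x, (F x).Finite) {Ω : Type*} (T : Ω → Set α)
    (hT : Pairwise (Function.onFun Disjoint T)) :
    {i | μ {x | x ∈ P ∧ Disjoint (F x) (T i)} ≠ μ P}.Countable := by
  have hsub : {i | μ {x | x ∈ P ∧ Disjoint (F x) (T i)} ≠ μ P} ⊆
      ⋃ n : ℕ, {i | μ {x | x ∈ P ∧ Disjoint (F x) (T i)} + (n + 1 : ℝ≥0∞)⁻¹ < μ P} := by
    intro i hi
    have hlt : μ {x | x ∈ P ∧ Disjoint (F x) (T i)} < μ P :=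
      lt_of_le_of_ne (measure_mono fun x hx => hx.1) hi
    obtain ⟨r, hr, hr2⟩ := ENNReal.lt_iff_exists_add_pos_lt.1 hlt
    obtain ⟨n, hn⟩ := ENNReal.exists_inv_nat_lt (a := (r : ℝ≥0∞)) (by exact_mod_cast hr.ne')
    refine mem_iUnion.2 ⟨n, lt_of_le_of_lt ?_ hr2⟩
    refine add_le_add le_rfl (le_trans ?_ hn.le)
    apply ENNReal.inv_le_inv.2
    exact le_self_add
  refine (countable_iUnion fun n => ?_).mono hsub
  apply Set.Finite.countable
  by_contra hinf
  have hinf' : Set.Infinite {i | μ {x | x ∈ P ∧ Disjoint (F x) (T i)} + (n + 1 : ℝ≥0∞)⁻¹ < μ P} :=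
    hinf
  set e := hinf'.natEmbedding with he
  obtain ⟨k, hk⟩ := cut_aux μ hP F hF (fun k => T (e k).1) (by
    intro i j hij
    exact hT (fun h => hij (e.injective (Subtype.ext h)))) (ε := (n + 1 : ℝ≥0∞)⁻¹)
    (ENNReal.inv_ne_zero.2 (by simp))
  exact absurd (e k).2 (not_lt.2 hk)

end Pool.Agent.Lib.MP_a54a32_lc
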